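import Mathlib

/-!
# Four translates: Fourier supports of the characters of a colouring with four colours
-/

set_option autoImplicit false

open scoped Pointwise

namespace Pool.Agent.H33.FourCol

variable {n : ℕ}

/-- the character of the vector `ξ` -/
noncomputable def chi (ξ x : Fin n → ZMod 2) : ℝ := (-1) ^ (∑ i, ξ i * x i).val

theorem pow_val_add (a b : ZMod 2) : (-1 : ℝ) ^ (a + b).val = (-1) ^ a.val * (-1) ^ b.val := by
  have h : ∀ a b : ZMod 2, ((-1 : ℤ)) ^ (a + b).val = (-1) ^ a.val * (-1) ^ b.val := by decide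
  exact_mod_cast h a b

theorem chi_add_right (ξ x y : Fin n → ZMod 2) : chi ξ (x + y) = chi ξ x * chi ξ y := by
  unfold chi
  rw [← pow_val_add]
  congr 2
  rw [← Finset.sum_add_distrib]
  exact Finset.sum_congr rfl fun i _ => by rw [Pi.add_apply, mul_add]

theorem chi_add_left (ξ η x : Fin n → ZMod 2) : chi (ξ + η) x = chi ξ x * chi η x := by
  unfold chi
  rw [← pow_val_add]
  congr 2
  rw [← Finset.sum_add_distrib]
  exact Finset.sum_congr rfl fun i _ => by rw [Pi.add_apply, add_mul]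

theorem chi_sq (ξ x : Fin n → ZMod 2) : chi ξ x * chi ξ x = 1 := by
  unfold chi
  rw [← pow_add, ← two_mul, pow_mul]
  norm_num

theorem chi_cases (ξ x : Fin n → ZMod 2) : chi ξ x = 1 ∨ chi ξ x = -1 := by
  have h := chi_sq ξ x
  have h2 : (chi ξ x - 1) * (chi ξ x + 1) = 0 := by linear_combination h
  rcases mul_eq_zero.1 h2 with h3 | h3
  · left; linarith
  · right; linarith

theorem chi_eq_one {ξ x : Fin n → ZMod 2} (h : ∑ i, ξ i * x i = 0) : chi ξ x = 1 := by
  unfold chi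
  rw [h]
  simp

theorem chi_zero (ξ : Fin n → ZMod 2) : chi ξ 0 = 1 := chi_eq_one (by simp)

theorem add_self_zero (x : Fin n → ZMod 2) : x + x = 0 := by
  funext j
  have : ∀ p : ZMod 2, p + p = 0 := by decide
  exact this (x j)

theorem add_eq_zero_iff {x y : Fin n → ZMod 2} : x + y = 0 ↔ y = x := by
  constructor
  · intro h
    have h2 : x + (x + y) = x + 0 := by rw [h]
    rwa [← add_assoc, add_self_zero, zero_add, add_zero] at h2
  · intro h
    rw [h, add_self_zero]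

theorem sum_chi (x : Fin n → ZMod 2) :
    ∑ ξ : Fin n → ZMod 2, chi ξ x = if x = 0 then (2 : ℝ) ^ n else 0 := by
  split_ifs with h
  · rw [h]
    simp only [chi_zero]
    simp
  · obtain ⟨i, hi⟩ : ∃ i, x i ≠ 0 := by
      by_contra hc
      push Not at hc
      exact h (funext hc)
    have hx : x i = 1 := by
      have : ∀ p : ZMod 2, p ≠ 0 → p = 1 := by decide
      exact this _ hi
    have h1 : chi (Pi.single i 1) x = -1 := by
      unfold chi
      have h2 : ∑ j, (Pi.single i (1 : ZMod 2) : Fin n → ZMod 2) j * x j = 1 := by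
        rw [Finset.sum_eq_single i]
        · rw [Pi.single_eq_same, hx, one_mul]
        · intro j _ hj
          rw [Pi.single_eq_of_ne hj, zero_mul]
        · intro h3
          exact absurd (Finset.mem_univ _) h3
      rw [h2]
      have h3 : (1 : ZMod 2).val = 1 := by decide
      rw [h3]
      norm_num
    have h2 : ∑ ξ : Fin n → ZMod 2, chi ξ x = ∑ ξ : Fin n → ZMod 2, chi (ξ + Pi.single i 1) x :=
      (Equiv.sum_comp (Equiv.addRight (Pi.single i (1 : ZMod 2) : Fin n → ZMod 2))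
        (fun ξ => chi ξ x)).symm
    have h3 : ∑ ξ : Fin n → ZMod 2, chi (ξ + Pi.single i 1) x =
        -∑ ξ : Fin n → ZMod 2, chi ξ x := by
      rw [← Finset.sum_neg_distrib]
      refine Finset.sum_congr rfl fun ξ _ => ?_
      rw [chi_add_left, h1]
      ring
    linarith

/-- the Fourier transform, not normalised -/
noncomputable def hat (F : (Fin n → ZMod 2) → ℝ) (ξ : Fin n → ZMod 2) : ℝ := ∑ x, F x * chi ξ x

theorem hat_inv (F : (Fin n → ZMod 2) → ℝ) (y : Fin n → ZMod 2) :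
    ∑ ξ, hat F ξ * chi ξ y = 2 ^ n * F y := by
  have h1 : ∀ ξ : Fin n → ZMod 2, hat F ξ * chi ξ y = ∑ x, F x * chi ξ (x + y) := by
    intro ξ
    unfold hat
    rw [Finset.sum_mul]
    exact Finset.sum_congr rfl fun x _ => by rw [chi_add_right]; ring
  simp only [h1]
  rw [Finset.sum_comm]
  simp only [← Finset.mul_sum, sum_chi, add_eq_zero_iff]
  rw [Finset.sum_eq_single y]
  · simp; ring
  · intro x _ hx
    rw [if_neg (Ne.symm hx), mul_zero]
  · intro h; exact absurd (Finset.mem_univ _) h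

theorem hat_corr (F : (Fin n → ZMod 2) → ℝ) (z : Fin n → ZMod 2) :
    ∑ ξ, hat F ξ ^ 2 * chi ξ z = 2 ^ n * ∑ x, F x * F (x + z) := by
  have h1 : ∀ ξ : Fin n → ZMod 2, hat F ξ ^ 2 * chi ξ z =
      ∑ x, F x * (hat F ξ * chi ξ (x + z)) := by
    intro ξ
    have h2 : hat F ξ ^ 2 * chi ξ z = (∑ x, F x * chi ξ x) * (hat F ξ * chi ξ z) := by
      have h3 : hat F ξ = ∑ x, F x * chi ξ x := rfl
      rw [← h3]
      ring
    rw [h2, Finset.sum_mul]
    exact Finset.sum_congr rfl fun x _ => by rw [chi_add_right]; ring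
  simp only [h1]
  rw [Finset.sum_comm, Finset.mul_sum]
  refine Finset.sum_congr rfl fun x _ => ?_
  rw [← Finset.mul_sum, hat_inv]
  ring

theorem hat_mul (F G : (Fin n → ZMod 2) → ℝ) (ξ : Fin n → ZMod 2) :
    ∑ η, hat F η * hat G (ξ + η) = 2 ^ n * hat (fun x => F x * G x) ξ := by
  have h1 : ∀ η : Fin n → ZMod 2, hat F η * hat G (ξ + η) =
      ∑ y, G y * chi ξ y * (hat F η * chi η y) := by
    intro η
    have h3 : hat G (ξ + η) = ∑ y, G y * chi (ξ + η) y := rfl
    rw [h3, Finset.mul_sum]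
    exact Finset.sum_congr rfl fun x _ => by rw [chi_add_left]; ring
  simp only [h1]
  rw [Finset.sum_comm]
  have h2 : hat (fun x => F x * G x) ξ = ∑ y, F y * G y * chi ξ y := rfl
  rw [h2, Finset.mul_sum]
  refine Finset.sum_congr rfl fun y _ => ?_
  rw [← Finset.mul_sum, hat_inv]
  ring

/-- the sign of an element of `ZMod 2` -/
def sg (a : ZMod 2) : ℤ := if a = 0 then 1 else -1

theorem sg_ne : ∀ a b : ZMod 2 × ZMod 2, a ≠ b →
    sg a.1 * sg b.1 + sg a.2 * sg b.2 + (sg a.1 * sg a.2) * (sg b.1 * sg b.2) = -1 := by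
  decide

theorem sg_sq : ∀ a : ZMod 2, sg a * sg a = 1 := by decide

/-- the general statement for a colouring with colours in `ZMod 2 × ZMod 2` -/
theorem main (D : Set (Fin n → ZMod 2)) (c : (Fin n → ZMod 2) → ZMod 2 × ZMod 2)
    (hc : ∀ z ∈ D, ∀ x, c x ≠ c (x + z)) :
    ∃ V : Submodule (ZMod 2) (Fin n → ZMod 2), n ≤ Module.finrank (ZMod 2) V + 2 ∧
      ∀ w : (Fin n → ZMod 2) → ℝ, (∀ z, 0 ≤ w z) → (∀ z, z ∉ D → w z = 0) →
        (∀ ξ, -(∑ z, w z) / 3 ≤ ∑ z, w z * chi ξ z) → ∀ z ∈ V, w z = 0 := by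
  set F1 : (Fin n → ZMod 2) → ℝ := fun x => (sg (c x).1 : ℝ) with hF1
  set F2 : (Fin n → ZMod 2) → ℝ := fun x => (sg (c x).2 : ℝ) with hF2
  set F3 : (Fin n → ZMod 2) → ℝ := fun x => F1 x * F2 x with hF3
  have hq1 : ∀ x, F1 x * F1 x = 1 := fun x => by
    simp only [hF1]; exact_mod_cast sg_sq (c x).1
  have hq2 : ∀ x, F2 x * F2 x = 1 := fun x => by
    simp only [hF2]; exact_mod_cast sg_sq (c x).2
  have hq3 : ∀ x, F3 x * F3 x = 1 := fun x => by
    simp only [hF3]
    calc F1 x * F2 x * (F1 x * F2 x) = (F1 x * F1 x) * (F2 x * F2 x) := by ring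
      _ = 1 := by rw [hq1, hq2, one_mul]
  have hD : ∀ z ∈ D, ∀ x, F1 x * F1 (x + z) + F2 x * F2 (x + z) + F3 x * F3 (x + z) = -1 := by
    intro z hz x
    have h := sg_ne (c x) (c (x + z)) (hc z hz x)
    simp only [hF3, hF1, hF2]
    exact_mod_cast h
  -- a triple of the supports
  have h4n : (0 : ℝ) < 2 ^ n := by positivity
  obtain ⟨ξ₃, h3⟩ : ∃ ξ, hat F3 ξ ≠ 0 := by
    by_contra hcon
    push Not at hcon
    have h1 := hat_inv F3 0
    simp only [hcon, zero_mul, Finset.sum_const_zero] at h1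
    have h2 : F3 0 = 0 := by
      rcases mul_eq_zero.1 h1.symm with h | h
      · exact absurd h h4n.ne'
      · exact h
    have := hq3 0
    rw [h2] at this
    norm_num at this
  obtain ⟨ξ₁, h12⟩ : ∃ η, hat F1 η * hat F2 (ξ₃ + η) ≠ 0 := by
    by_contra hcon
    push Not at hcon
    have h1 := hat_mul F1 F2 ξ₃
    simp only [hcon, Finset.sum_const_zero] at h1
    rcases mul_eq_zero.1 h1.symm with h | h
    · exact h4n.ne' h
    · exact h3 h
  obtain ⟨ξ₂, hξ₂⟩ : ∃ ξ₂, ξ₂ = ξ₃ + ξ₁ := ⟨_, rfl⟩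
  rw [← hξ₂] at h12
  have h1 : hat F1 ξ₁ ≠ 0 := left_ne_zero_of_mul h12
  have h2 : hat F2 ξ₂ ≠ 0 := right_ne_zero_of_mul h12
  have hξ₃ : ξ₃ = ξ₁ + ξ₂ := by
    rw [hξ₂, add_comm ξ₃ ξ₁, ← add_assoc, add_self_zero, zero_add]
  -- the subspace
  set L : (Fin n → ZMod 2) →ₗ[ZMod 2] (ZMod 2 × ZMod 2) :=
    (∑ i, ξ₁ i • (LinearMap.proj i : (Fin n → ZMod 2) →ₗ[ZMod 2] ZMod 2)).prod
      (∑ i, ξ₂ i • (LinearMap.proj i : (Fin n → ZMod 2) →ₗ[ZMod 2] ZMod 2)) with hL
  have hLz : ∀ z, L z = (∑ i, ξ₁ i * z i, ∑ i, ξ₂ i * z i) := by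
    intro z
    simp [hL]
  refine ⟨LinearMap.ker L, ?_, ?_⟩
  · have hr := LinearMap.finrank_range_add_finrank_ker L
    have hn : Module.finrank (ZMod 2) (Fin n → ZMod 2) = n := by simp
    have h5 : Module.finrank (ZMod 2) (LinearMap.range L) ≤ 2 := by
      refine (Submodule.finrank_le _).trans ?_
      rw [Module.finrank_prod]
      simp
    omega
  · intro w hw hwD htight z hz
    set M : ℝ := ∑ z, w z with hM
    have hcorr : ∀ F : (Fin n → ZMod 2) → ℝ, ∑ ξ, hat F ξ ^ 2 * (∑ z, w z * chi ξ z) =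
        2 ^ n * ∑ z, w z * ∑ x, F x * F (x + z) := by
      intro F
      have h5 : ∀ ξ : Fin n → ZMod 2, hat F ξ ^ 2 * (∑ z, w z * chi ξ z) =
          ∑ z, w z * (hat F ξ ^ 2 * chi ξ z) := by
        intro ξ
        rw [Finset.mul_sum]
        exact Finset.sum_congr rfl fun x _ => by ring
      simp only [h5]
      rw [Finset.sum_comm, Finset.mul_sum]
      refine Finset.sum_congr rfl fun x _ => ?_
      rw [← Finset.mul_sum, hat_corr]
      ring
    have hpars : ∀ F : (Fin n → ZMod 2) → ℝ, (∀ x, F x * F x = 1) →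
        ∑ ξ, hat F ξ ^ 2 = 2 ^ n * 2 ^ n := by
      intro F hF
      have h5 := hat_corr F 0
      simp only [chi_zero, mul_one, add_zero, hF] at h5
      rw [h5]
      simp
    -- the total
    have htot : ∑ ξ, (hat F1 ξ ^ 2 + hat F2 ξ ^ 2 + hat F3 ξ ^ 2) *
        ((∑ z, w z * chi ξ z) + M / 3) = 0 := by
      have h5 : ∀ ξ : Fin n → ZMod 2, (hat F1 ξ ^ 2 + hat F2 ξ ^ 2 + hat F3 ξ ^ 2) *
          ((∑ z, w z * chi ξ z) + M / 3) =
          (hat F1 ξ ^ 2 * (∑ z, w z * chi ξ z) + hat F2 ξ ^ 2 * (∑ z, w z * chi ξ z) +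
            hat F3 ξ ^ 2 * (∑ z, w z * chi ξ z)) +
          (hat F1 ξ ^ 2 + hat F2 ξ ^ 2 + hat F3 ξ ^ 2) * (M / 3) := by
        intro ξ
        ring
      simp only [h5]
      rw [Finset.sum_add_distrib, Finset.sum_add_distrib, Finset.sum_add_distrib,
        hcorr F1, hcorr F2, hcorr F3, ← Finset.sum_mul, Finset.sum_add_distrib,
        Finset.sum_add_distrib, hpars F1 hq1, hpars F2 hq2, hpars F3 hq3]
      have h6 : (∑ z, w z * ∑ x, F1 x * F1 (x + z)) + (∑ z, w z * ∑ x, F2 x * F2 (x + z)) +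
          (∑ z, w z * ∑ x, F3 x * F3 (x + z)) = -(2 ^ n * M) := by
        rw [← Finset.sum_add_distrib, ← Finset.sum_add_distrib, hM, Finset.mul_sum,
          ← Finset.sum_neg_distrib]
        refine Finset.sum_congr rfl fun y _ => ?_
        by_cases hy : y ∈ D
        · rw [← mul_add, ← mul_add, ← Finset.sum_add_distrib, ← Finset.sum_add_distrib]
          simp only [hD y hy]
          simp
          ring
        · rw [hwD y hy]
          ring
      calc _ = 2 ^ n * ((∑ z, w z * ∑ x, F1 x * F1 (x + z)) +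
            (∑ z, w z * ∑ x, F2 x * F2 (x + z)) + (∑ z, w z * ∑ x, F3 x * F3 (x + z))) +
            (2 ^ n * 2 ^ n + 2 ^ n * 2 ^ n + 2 ^ n * 2 ^ n) * (M / 3) := by ring
        _ = 0 := by rw [h6]; ring
    have hterm : ∀ ξ, (hat F1 ξ ^ 2 + hat F2 ξ ^ 2 + hat F3 ξ ^ 2) *
        ((∑ z, w z * chi ξ z) + M / 3) = 0 := by
      have h5 := (Finset.sum_eq_zero_iff_of_nonneg (fun ξ _ => by
        have h6 := htight ξ
        have h7 : 0 ≤ (∑ z, w z * chi ξ z) + M / 3 := by linarith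
        positivity)).1 htot
      exact fun ξ => h5 ξ (Finset.mem_univ _)
    have hsupp : ∀ ξ, (hat F1 ξ ≠ 0 ∨ hat F2 ξ ≠ 0 ∨ hat F3 ξ ≠ 0) →
        ∑ z, w z * chi ξ z = -(M / 3) := by
      intro ξ hξ
      rcases mul_eq_zero.1 (hterm ξ) with h | h
      · exfalso
        have e1 := sq_nonneg (hat F1 ξ)
        have e2 := sq_nonneg (hat F2 ξ)
        have e3 := sq_nonneg (hat F3 ξ)
        rcases hξ with h' | h' | h'
        · have := pow_pos (abs_pos.2 h') 2
          rw [sq_abs] at this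
          linarith
        · have := pow_pos (abs_pos.2 h') 2
          rw [sq_abs] at this
          linarith
        · have := pow_pos (abs_pos.2 h') 2
          rw [sq_abs] at this
          linarith
      · linarith
    have a1 := hsupp ξ₁ (Or.inl h1)
    have a2 := hsupp ξ₂ (Or.inr (Or.inl h2))
    have a3 := hsupp ξ₃ (Or.inr (Or.inr h3))
    have hsum : ∑ y, w y * ((1 + chi ξ₁ y) * (1 + chi ξ₂ y)) = 0 := by
      have h5 : ∀ y, w y * ((1 + chi ξ₁ y) * (1 + chi ξ₂ y)) =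
          w y + w y * chi ξ₁ y + w y * chi ξ₂ y + w y * chi ξ₃ y := by
        intro y
        rw [hξ₃, chi_add_left]
        ring
      simp only [h5]
      rw [Finset.sum_add_distrib, Finset.sum_add_distrib, Finset.sum_add_distrib, a1, a2, a3,
        ← hM]
      ring
    have hnn : ∀ y ∈ (Finset.univ : Finset (Fin n → ZMod 2)),
        0 ≤ w y * ((1 + chi ξ₁ y) * (1 + chi ξ₂ y)) := by
      intro y _
      have e1 : 0 ≤ 1 + chi ξ₁ y := by rcases chi_cases ξ₁ y with h | h <;> rw [h] <;> norm_num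
      have e2 : 0 ≤ 1 + chi ξ₂ y := by rcases chi_cases ξ₂ y with h | h <;> rw [h] <;> norm_num
      have := hw y
      positivity
    have hz0 := (Finset.sum_eq_zero_iff_of_nonneg hnn).1 hsum z (Finset.mem_univ _)
    have hz' := hLz z
    rw [LinearMap.mem_ker.1 hz] at hz'
    have b1 : ∑ i, ξ₁ i * z i = 0 := (congrArg Prod.fst hz').symm
    have b2 : ∑ i, ξ₂ i * z i = 0 := (congrArg Prod.snd hz').symm
    rw [chi_eq_one b1, chi_eq_one b2] at hz0
    linarith

end Pool.Agent.H33.FourCol
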